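import Pool.Agent.H.MP_9e990c_al.h20.Lift
import Pool.Agent.H.MP_9e990c_al.h89.SigO
import Pool.Agent.H.MP_9e990c_al.h30.Kernel

/-! The invariants lift: the elements of `range redO` killed by the derivatives with respect to
`x_1, x_2, x_3` lift to elements of `O` fixed by the `σ_j`. -/

set_option autoImplicit false

namespace Pool.Agent.H.MP_9e990c_al.Base

open N9e MvPolynomial

theorem pderiv_cub9 (i : Fin 7) (hi : ¬ i < 4) (P : PA) : pderiv i (cub P) = 0 := by
  induction P using MvPolynomial.induction_on with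
  | C a => rw [MvPolynomial.algHom_C, MvPolynomial.algebraMap_eq, pderiv_C]
  | add p q hp hq => rw [map_add, map_add, hp, hq, add_zero]
  | mul_X p j hp =>
    rw [map_mul, Derivation.leibniz, hp, smul_zero, add_zero, cub_X]
    split_ifs with hj
    · rw [pderiv_X, Pi.single_eq_of_ne (fun h => hi (by rw [← h]; exact hj)), smul_zero]
    · rw [Derivation.leibniz_pow, ← Nat.cast_smul_eq_nsmul (ZMod 3)]
      have h3 : ((3 : ℕ) : ZMod 3) = 0 := by decide
      rw [h3, zero_smul, smul_zero]

theorem pd_div9 (i : Fin 7) (a b : MM) (hb : b ≠ 0) (ha' : pd i a = 0) (hb' : pd i b = 0) :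
    pd i (a / b) = 0 := by
  have h := (pd i).leibniz (a / b) b
  rw [div_mul_cancel₀ _ hb, ha', hb', smul_zero, zero_add] at h
  rcases mul_eq_zero.1 (h.symm : b • pd i (a / b) = 0) with h1 | h1
  · exact absurd h1 hb
  · exact h1

theorem pd_redO9 (i : Fin 7) (hi : ¬ i < 4) (r : O) : pd i (redO r) = 0 := by
  obtain ⟨P, Q, hQ, h⟩ := redO_range r
  rw [h]
  refine pd_div9 i _ _ ?_ ?_ ?_
  · intro h0
    rw [← map_zero (algebraMap PA MM)] at h0
    have h1 := IsFractionRing.injective PA MM h0
    rw [← map_zero cub] at h1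
    exact hQ (cub_injective h1)
  · rw [pd_algebraMap, pderiv_cub9 i hi, map_zero]
  · rw [pd_algebraMap, pderiv_cub9 i hi, map_zero]

/-- the invariant `x_i σ_i(x_i) σ_i²(x_i)` -/
noncomputable def wO (i : Fin 7) : O := varO i * sO i (varO i) * sO i (sO i (varO i))

theorem redO_sO_var (i : Fin 7) : redO (sO i (varO i)) = redO (varO i) := by
  have h := congrArg redO (sO_self i)
  rw [map_mul, map_add, map_add, map_mul, map_one, map_pow, map_pow, redO_pi] at h
  simpa using h

theorem redO_sO_sO_var (i : Fin 7) : redO (sO i (sO i (varO i))) = redO (varO i) := by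
  have h := congrArg redO (congrArg (sO i) (sO_self i))
  rw [map_mul (sO i), map_add (sO i), map_add (sO i), map_mul (sO i), map_one, map_pow, map_pow,
    sO_pi, map_mul, map_add, map_add, map_mul, map_one, map_pow, map_pow, redO_pi,
    redO_sO_var] at h
  simpa using h

theorem redO_wO (i : Fin 7) : redO (wO i) = redO (varO i) ^ 3 := by
  rw [wO, map_mul, map_mul, redO_sO_var, redO_sO_sO_var]
  ring

theorem sO_wO (i j : Fin 7) : sO j (wO i) = wO i := by
  rw [wO, map_mul, map_mul, sO_comm j i, sO_comm j i (sO i (varO i)), sO_comm j i (varO i)]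
  by_cases h : i = j
  · subst h
    rw [sO_three]
    ring
  · rw [sO_ne h]

/-- INVARIANTS LIFT. -/
theorem inv_lift (r : O) (h : ∀ j : Fin 7, j = 1 ∨ j = 2 ∨ j = 3 → pd j (redO r) = 0) :
    ∃ c : O, (∀ j : Fin 7, j = 1 ∨ j = 2 ∨ j = 3 → sO j c = c) ∧ redO c = redO r := by
  have hS : ∀ i ∈ ({1, 2, 3, 4, 5, 6} : Finset (Fin 7)), pd i (redO r) = 0 := by
    intro i hi
    fin_cases hi
    · exact h 1 (Or.inl rfl)
    · exact h 2 (Or.inr (Or.inl rfl))
    · exact h 3 (Or.inr (Or.inr rfl))
    · exact pd_redO9 4 (by decide) r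
    · exact pd_redO9 5 (by decide) r
    · exact pd_redO9 6 (by decide) r
  obtain ⟨P, Q, hQ, hr⟩ := kernel_pd _ _ hS
  let v : Fin 7 → O := fun i => if i ∈ ({1, 2, 3} : Finset (Fin 7)) then wO i else varO i
  have hv : ∀ i, redO (v i) = algebraMap PA MM (phi {1, 2, 3, 4, 5, 6} (X i)) := by
    intro i
    show redO (if i ∈ ({1, 2, 3} : Finset (Fin 7)) then wO i else varO i) = _
    rw [phi_X]
    by_cases h1 : i ∈ ({1, 2, 3} : Finset (Fin 7))
    · rw [if_pos h1, redO_wO, redO_var, if_pos, if_pos, map_pow]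
      · rfl
      · revert h1; revert i; decide
      · revert h1; revert i; decide
    · rw [if_neg h1, redO_var]
      by_cases h2 : i < 4
      · rw [if_pos h2, if_neg]
        · rfl
        · revert h1 h2; revert i; decide
      · rw [if_neg h2, if_pos, map_pow]
        · rfl
        · revert h1 h2; revert i; decide
  have hae : ∀ P : PA, aeval (fun i => redO (v i)) P =
      algebraMap PA MM (phi {1, 2, 3, 4, 5, 6} P) := by
    intro P
    have h1 : (aeval (fun i => redO (v i)) : PA →ₐ[ZMod 3] MM) =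
        (IsScalarTower.toAlgHom (ZMod 3) PA MM).comp (phi {1, 2, 3, 4, 5, 6}) := by
      refine MvPolynomial.algHom_ext fun i => ?_
      rw [MvPolynomial.aeval_X, AlgHom.comp_apply, hv]
      rfl
    rw [h1]
    rfl
  have hQ' : aeval (fun i => redO (v i)) Q ≠ 0 := by
    rw [hae]
    intro h0
    rw [← map_zero (algebraMap PA MM)] at h0
    have h1 := IsFractionRing.injective PA MM h0
    rw [← map_zero (phi {1, 2, 3, 4, 5, 6})] at h1
    exact hQ (phi_injective _ h1)
  obtain ⟨c, hc, hc'⟩ := exists_lift v P Q hQ'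
  refine ⟨c, ?_, by rw [hc, hr, hae, hae]⟩
  intro j hj
  refine hc' (sO j) fun i => ?_
  show sO j (if i ∈ ({1, 2, 3} : Finset (Fin 7)) then wO i else varO i) =
    if i ∈ ({1, 2, 3} : Finset (Fin 7)) then wO i else varO i
  by_cases h1 : i ∈ ({1, 2, 3} : Finset (Fin 7))
  · rw [if_pos h1, sO_wO]
  · rw [if_neg h1, sO_ne]
    rintro rfl
    apply h1
    rcases hj with rfl | rfl | rfl <;> decide

end Pool.Agent.H.MP_9e990c_al.Base
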