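import Pool.Agent.H.MP_9e990c_al.h89.SigFin
import Pool.Agent.H.MP_9e990c_al.h79.Alg

/-! The data of the algebra over `O`, from Section 1. -/

set_option autoImplicit false

namespace Pool.Agent.H.MP_9e990c_al.Base

open N9e

theorem redO_one_add (x c : O) (h : x = 1 + piO * c) : redO x = 1 := by
  rw [h, map_add, map_mul, redO_pi, zero_mul, add_zero, map_one]

theorem sg_of {S T : O →+* O} (hc : ∀ x, S (T x) = T (S x)) (hS : ∀ x, S (S (S x)) = x)
    (hT : ∀ x, T (T (T x)) = x) {g u : O} (h : S (T g) = u) : g = S (S (T (T u))) := by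
  rw [← h, ← hc, ← hc, hT, hS]

theorem gO_sO' {i : Fin 7} (h0 : i ≠ 0) (hi : i < 4) (x : O) :
    gO (sO i x) = sO i (sO i (gO x)) := by
  have h := congrArg gO (gO_sO h0 hi x)
  rw [gO_gO] at h
  rw [← h, sO_three]

theorem exists_data : ∃ D : AlgData O, D.s1 = sO 1 ∧ D.s2 = sO 2 ∧ D.s3 = sO 3 ∧ D.sg = gO ∧
    (∃ e, D.u1 = 1 + 2 * piO ^ 3 * varO 0 + piO ^ 4 * e) ∧
    (∃ e, D.u3 = 1 + 2 * piO ^ 3 + piO ^ 4 * e) ∧
    redO D.a1 = xx 4 ^ 3 ∧ redO D.a2 = xx 5 ^ 3 ∧ redO D.a3 = xx 6 ^ 3 := by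
  obtain ⟨u, β, γ, ⟨c1, hu⟩, ⟨c2, hβ⟩, ⟨c3, hγ⟩, h1, h2, h3, h4, h5, h6, h7, h8, h9, h10⟩ :=
    main1 isSig_gOe
  obtain ⟨u', β', γ', ⟨c1', hu'⟩, ⟨c2', hβ'⟩, ⟨c3', hγ'⟩, h1', h2', h3', h4', h5', h6', h7', h8',
    h9', h10'⟩ := main3 isSig_gOe
  have hur : redO u = 1 := redO_one_add u (2 * piO ^ 2 * varO 0 + piO ^ 3 * c1) (by
    rw [hu]; ring)
  have hur' : redO u' = 1 := redO_one_add u' (2 * piO ^ 2 + piO ^ 3 * c1') (by
    rw [hu']; ring)
  obtain ⟨v, hv⟩ : ∃ v, v * u = 1 := (unitO u (by rw [hur]; exact one_ne_zero)).exists_left_inv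
  obtain ⟨v', hv'⟩ : ∃ v', v' * u' = 1 :=
    (unitO u' (by rw [hur']; exact one_ne_zero)).exists_left_inv
  have hg : ∀ x, gOe x = gO x := fun _ => rfl
  rw [hg] at h3 h4 h5 h3' h4' h5'
  rw [mul_one] at hu'
  refine ⟨{ s1 := sO 1, s2 := sO 2, s3 := sO 3, sg := gO, u1 := u, u3 := u', v1 := v, v3 := v'
            a1 := varO 4 * β, a2 := varO 5 * γ * γ', a3 := varO 6 * β'
            s12 := sO_comm 1 2, s13 := sO_comm 1 3, s32 := sO_comm 3 2
            c1 := sO_three 1, c2 := sO_three 2, c3 := sO_three 3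
            sgsg := gO_gO, sg1 := fun x => ?_, sg2 := fun x => ?_, sg3 := fun x => ?_
            v1u1 := hv, v3u3 := hv', s1a1 := ?_, s3a1 := ?_, s1a3 := ?_, s3a3 := ?_, s2a2 := ?_
            n1 := ?_, n3 := ?_, m1 := ?_, m3 := ?_, s3u1 := h6, s1u3 := h6', sgu1 := ?_
            sgu3 := ?_, a1sg := ?_, a2sg := ?_, a3sg := ?_ }, rfl, rfl, rfl, rfl, ⟨c1, hu⟩,
            ⟨c1', hu'⟩, ?_, ?_, ?_⟩
  · exact gO_sO' (by decide) (by decide) x
  · exact gO_sO' (by decide) (by decide) x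
  · exact gO_sO' (by decide) (by decide) x
  · rw [map_mul, sO_ne (by decide), h7]
  · rw [map_mul, sO_ne (by decide), h8]
  · rw [map_mul, sO_ne (by decide), h8']
  · rw [map_mul, sO_ne (by decide), h7']
  · rw [map_mul, map_mul, sO_ne (by decide), h9, h9']
  · rw [map_mul, sO_ne (by decide)]
    linear_combination varO 4 * h1
  · rw [map_mul, sO_ne (by decide)]
    linear_combination varO 6 * h1'
  · rw [map_mul, map_mul, sO_ne (by decide), h10']
    linear_combination -varO 5 * γ' * h2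
  · rw [map_mul, map_mul, sO_ne (by decide), h10]
    linear_combination -varO 5 * γ * h2'
  · exact sg_of (sO_comm 1 2) (sO_three 1) (sO_three 2) h5
  · exact sg_of (sO_comm 3 2) (sO_three 3) (sO_three 2) h5'
  · have hb := gO_b (i := 4) (by decide)
    rw [map_mul]
    linear_combination gO β * β * hb + h3
  · have hb := gO_b (i := 5) (by decide)
    rw [map_mul, map_mul]
    linear_combination gO γ * γ * gO γ' * γ' * hb + gO γ * γ * h4' + h4
  · have hb := gO_b (i := 6) (by decide)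
    rw [map_mul]
    linear_combination gO β' * β' * hb + h3'
  · rw [map_mul, redO_one_add _ _ hβ, redO_var, if_neg (by decide), mul_one]
  · rw [map_mul, map_mul, redO_one_add _ _ hγ, redO_one_add _ _ hγ', redO_var,
      if_neg (by decide), mul_one, mul_one]
  · rw [map_mul, redO_one_add _ _ hβ', redO_var, if_neg (by decide), mul_one]

end Pool.Agent.H.MP_9e990c_al.Base
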