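import Mathlib

/-!
# MP_9e990c_al: from a 3-central element of the order to a derivation of the residue field
-/

set_option autoImplicit false

namespace Pool.Agent.H.MP_9e990c_al

/-- The data of the order `S` with central element `P` (`= π`), residue field `M`, the bracket
`D F * L G - L F * D G` of `M`, the commutative subring `O`, and the elements `z j` (`j = 0, 1, 2`
for `z₁, z₂, z₃`). -/
structure Ord (S M : Type) [Ring S] [Field M] where
  red : S →+* M
  surj : Function.Surjective red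
  P : S
  P_comm : ∀ a, P * a = a * P
  P_reg : ∀ a, P * a = 0 → a = 0
  sep : ∀ a, (∀ n : ℕ, ∃ b, a = P ^ n * b) → a = 0
  red_P : red P = 0
  ker : ∀ a, red a = 0 → ∃ b, a = P * b
  unit : ∀ a, red a ≠ 0 → IsUnit a
  three : (3 : S) = -P ^ 12
  D : M → M
  L : M → M
  L_neg : ∀ F, L (-F) = -L F
  D_ss : ∀ g, D (D g) = 0 → D g = 0
  L_ss : ∀ g, L (L g) = 0 → L g = 0
  br : ∀ a b, ∃ c, a * b - b * a = P ^ 3 * c ∧
    red c = D (red a) * L (red b) - L (red a) * D (red b)
  O : Set S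
  O_comm : ∀ r ∈ O, ∀ r' ∈ O, r * r' = r' * r
  O_br : ∀ r ∈ O, ∀ a, ∃ c, r * a - a * r = P ^ 4 * c
  O_lift : ∀ F, D F = 0 → L F = 0 → ∃ r ∈ O, red r = F
  z1 : S
  z2 : S
  z3 : S
  t : M
  z1_ne : red z1 ≠ 0
  z2_ne : red z2 ≠ 0
  z3_ne : red z3 ≠ 0
  D_z1 : D (red z1) = 0
  D_z2 : D (red z2) = red z2
  D_z3 : D (red z3) = 0
  L_z1 : L (red z1) = t * red z1
  L_z2 : L (red z2) = 0
  L_z3 : L (red z3) = red z3
  X1 : M → M
  X2 : M → M
  X3 : M → M
  O_z1 : ∀ r ∈ O, ∃ c, r * z1 - z1 * r = P ^ 4 * c ∧ red c = -(X1 (red r) * red z1)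
  O_z2 : ∀ r ∈ O, ∃ c, r * z2 - z2 * r = P ^ 4 * c ∧ red c = -(X2 (red r) * red z2)
  O_z3 : ∀ r ∈ O, ∃ c, r * z3 - z3 * r = P ^ 4 * c ∧ red c = -(X3 (red r) * red z3)
  XL2 : ∀ r ∈ O, L (X2 (red r)) = 0
  XD3 : ∀ r ∈ O, D (X3 (red r)) = 0
  cent : ∀ r ∈ O, X1 (red r) = 0 → X2 (red r) = 0 → X3 (red r) = 0 →
    ∃ c, (∀ a, c * a = a * c) ∧ red c = red r
  s : S →+* S
  s_P : s P = P
  sb : M →+* M
  red_s : ∀ a, red (s a) = sb (red a)

namespace Ord

variable {S M : Type} [Ring S] [Field M] (A : Ord S M)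

theorem Pn_comm (n : ℕ) (a : S) : A.P ^ n * a = a * A.P ^ n := by
  have h : Commute A.P a := A.P_comm a
  exact (h.pow_left n).eq

theorem Pn_reg (n : ℕ) (a : S) (h : A.P ^ n * a = 0) : a = 0 := by
  induction n with
  | zero => simpa using h
  | succ n ih =>
    apply ih
    apply A.P_reg
    rw [← mul_assoc, ← pow_succ']
    exact h

theorem Pn_inj (n : ℕ) {a b : S} (h : A.P ^ n * a = A.P ^ n * b) : a = b := by
  apply sub_eq_zero.1
  apply A.Pn_reg n
  rw [mul_sub, h, sub_self]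

theorem red_Pn {n : ℕ} (hn : n ≠ 0) (a : S) : A.red (A.P ^ n * a) = 0 := by
  rw [map_mul, map_pow, A.red_P, zero_pow hn, zero_mul]

/-- if `P ^ m * c = P ^ l * b` and `red c ≠ 0` then `l ≤ m` -/
theorem le_of_red {m l : ℕ} {c b : S} (h : A.P ^ m * c = A.P ^ l * b) (hc : A.red c ≠ 0) :
    l ≤ m := by
  by_contra hlt
  push Not at hlt
  apply hc
  have h1 : c = A.P ^ (l - m) * b := by
    apply A.Pn_inj m
    rw [h, ← mul_assoc, ← pow_add]
    congr 2
    omega
  rw [h1]
  exact A.red_Pn (by omega) b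

/-- if `P ^ m * c = P ^ l * b` and `l < m` then `red b = 0` -/
theorem red_zero {m l : ℕ} {c b : S} (h : A.P ^ m * c = A.P ^ l * b) (hlt : l < m) :
    A.red b = 0 := by
  by_contra hb
  have := A.le_of_red h.symm hb
  omega

/-- the level of the commutators with `z` -/
def Lev (z : S) (l : ℕ) : Prop := ∀ a, ∃ b, z * a - a * z = A.P ^ l * b

theorem exists_lev {z a₀ : S} (h : z * a₀ ≠ a₀ * z) : ∃ l, A.Lev z l ∧ ¬ A.Lev z (l + 1) := by
  by_contra hc
  push Not at hc
  have h1 : ∀ l, A.Lev z l := by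
    intro l
    induction l with
    | zero => intro a; exact ⟨z * a - a * z, by rw [pow_zero, one_mul]⟩
    | succ l ih => exact hc l ih
  apply h
  apply sub_eq_zero.1
  exact A.sep _ fun n => h1 n a₀

theorem three_le {z : S} {l : ℕ} (h : ¬ A.Lev z (l + 1)) : 3 ≤ l := by
  by_contra hlt
  apply h
  intro a
  obtain ⟨c, hc, -⟩ := A.br z a
  refine ⟨A.P ^ (3 - (l + 1)) * c, ?_⟩
  rw [hc, ← mul_assoc, ← pow_add]
  congr 2
  omega

/-- the expansion of `z` along the centre -/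
theorem exists_exp {z a₀ : S} (h : z * a₀ ≠ a₀ * z) : ∃ (k : ℕ) (c z' : S), (∀ a, c * a = a * c) ∧
    z = c + A.P ^ k * z' ∧ ∀ c', (∀ a, c' * a = a * c') → A.red c' ≠ A.red z' := by
  by_contra hc
  push Not at hc
  have h1 : ∀ k : ℕ, ∃ c z' : S, (∀ a, c * a = a * c) ∧ z = c + A.P ^ k * z' := by
    intro k
    induction k with
    | zero => exact ⟨0, z, fun a => by rw [zero_mul, mul_zero], by rw [pow_zero, one_mul, zero_add]⟩
    | succ k ih =>
      obtain ⟨c, z', h1, h2⟩ := ih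
      obtain ⟨c', h3, h4⟩ := hc k c z' h1 h2
      obtain ⟨b, hb⟩ := A.ker (z' - c') (by rw [map_sub, h4, sub_self])
      refine ⟨c + A.P ^ k * c', b, fun a => ?_, ?_⟩
      · rw [add_mul, mul_add, h1 a, mul_assoc, h3 a, ← mul_assoc, A.Pn_comm, mul_assoc]
      · have h5 : z' = c' + A.P * b := by rw [← hb]; abel
        rw [h2]
        conv_lhs => rw [h5]
        rw [mul_add, ← mul_assoc, ← pow_succ, add_assoc]
  apply h
  apply sub_eq_zero.1
  apply A.sep
  intro n
  obtain ⟨c, z', h2, h3⟩ := h1 n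
  refine ⟨z' * a₀ - a₀ * z', ?_⟩
  rw [h3, add_mul, mul_add, h2 a₀, mul_sub, ← mul_assoc a₀, ← A.Pn_comm n a₀]
  simp only [mul_assoc]
  abel

/-- commutators with `z = c + P ^ k * z'` -/
theorem comm_exp {k : ℕ} {z c z' : S} (hc : ∀ a, c * a = a * c) (hz : z = c + A.P ^ k * z')
    (a : S) : z * a - a * z = A.P ^ k * (z' * a - a * z') := by
  rw [hz, add_mul, mul_add, hc a, mul_sub, ← mul_assoc a, ← A.Pn_comm k a]
  simp only [mul_assoc]
  abel

/-- LEMMA X: the commutators of `z` with `O` lie in a higher power of `P` -/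
theorem lemX {z a₀ : S} (h0 : z * a₀ ≠ a₀ * z) {l : ℕ} (hl : A.Lev z l) {r : S} (hr : r ∈ A.O) :
    ∃ b, z * r - r * z = A.P ^ (l + 1) * b := by
  obtain ⟨k, c, z', hc, hz, hmax⟩ := A.exists_exp h0
  have hcomm := A.comm_exp hc hz
  -- the final step, from an inequality for `l`
  have fin : ∀ m : ℕ, l ≤ k + m → (∃ b, z' * r - r * z' = A.P ^ (m + 1) * b) →
      ∃ b, z * r - r * z = A.P ^ (l + 1) * b := by
    rintro m hm ⟨b, hb⟩
    refine ⟨A.P ^ (k + m - l) * b, ?_⟩
    rw [hcomm, hb, ← mul_assoc, ← mul_assoc, ← pow_add, ← pow_add]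
    congr 2
    omega
  -- the inequality, from one commutator
  have ineq : ∀ (m : ℕ) (a d : S), z' * a - a * z' = A.P ^ m * d → A.red d ≠ 0 → l ≤ k + m := by
    intro m a d h1 h2
    obtain ⟨b, hb⟩ := hl a
    refine A.le_of_red (c := d) (b := b) ?_ h2
    rw [← hb, hcomm, h1, ← mul_assoc, ← pow_add]
  by_cases hD : A.D (A.red z') = 0
  · by_cases hL : A.L (A.red z') = 0
    · -- case 2
      obtain ⟨r₀, hr₀, hr₀z⟩ := A.O_lift _ hD hL
      obtain ⟨g, hg⟩ := A.ker (z' - r₀) (by rw [map_sub, hr₀z, sub_self])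
      have hz' : z' = r₀ + A.P * g := by rw [← hg]; abel
      have hsplit : ∀ a, z' * a - a * z' = (r₀ * a - a * r₀) + A.P * (g * a - a * g) := by
        intro a
        rw [hz', add_mul, mul_add, mul_sub, ← mul_assoc a, ← A.P_comm a]
        simp only [mul_assoc]
        abel
      have key : ∀ a c, r₀ * a - a * r₀ = A.P ^ 4 * c → ∃ d, z' * a - a * z' = A.P ^ 4 * d ∧
          A.red d = A.red c + (A.D (A.red g) * A.L (A.red a) - A.L (A.red g) * A.D (A.red a)) := by
        intro a c hc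
        obtain ⟨e, he, he'⟩ := A.br g a
        refine ⟨c + e, ?_, by rw [map_add, he']⟩
        rw [hsplit, hc, he, ← mul_assoc, ← pow_succ', ← mul_add]
      obtain ⟨c1, hc1, hc1'⟩ := A.O_z1 r₀ hr₀
      obtain ⟨c2, hc2, hc2'⟩ := A.O_z2 r₀ hr₀
      obtain ⟨c3, hc3, hc3'⟩ := A.O_z3 r₀ hr₀
      obtain ⟨d1, hd1, hd1'⟩ := key _ _ hc1
      obtain ⟨d2, hd2, hd2'⟩ := key _ _ hc2
      obtain ⟨d3, hd3, hd3'⟩ := key _ _ hc3
      have hO : ∃ b, z' * r - r * z' = A.P ^ (4 + 1) * b := by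
        obtain ⟨e, he⟩ := A.O_br r hr g
        refine ⟨-e, ?_⟩
        have h1 : g * r - r * g = -(A.P ^ 4 * e) := by rw [← he]; abel
        rw [hsplit, A.O_comm _ hr₀ _ hr, sub_self, zero_add, h1, mul_neg, mul_neg, ← mul_assoc,
          ← pow_succ']
      by_cases h1 : A.red d1 = 0
      · by_cases h2 : A.red d2 = 0
        · by_cases h3 : A.red d3 = 0
          · exfalso
            rw [h1, hc1', A.D_z1, A.L_z1] at hd1'
            rw [h2, hc2', A.D_z2, A.L_z2] at hd2'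
            rw [h3, hc3', A.D_z3, A.L_z3] at hd3'
            have e3 : A.X3 (A.red r₀) = A.D (A.red g) := by
              apply mul_right_cancel₀ A.z3_ne
              linear_combination hd3'
            have e1 : A.X1 (A.red r₀) = A.t * A.D (A.red g) := by
              apply mul_right_cancel₀ A.z1_ne
              linear_combination hd1'
            have e2 : A.X2 (A.red r₀) = -A.L (A.red g) := by
              apply mul_right_cancel₀ A.z2_ne
              linear_combination hd2'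
            have f3 : A.D (A.red g) = 0 := A.D_ss _ (by rw [← e3]; exact A.XD3 _ hr₀)
            have f2 : A.L (A.red g) = 0 := A.L_ss _ (by
              have := A.XL2 _ hr₀
              rw [e2, A.L_neg] at this
              exact neg_eq_zero.1 this)
            obtain ⟨c', h4, h5⟩ := A.cent r₀ hr₀ (by rw [e1, f3, mul_zero])
              (by rw [e2, f2, neg_zero]) (by rw [e3, f3])
            exact hmax c' h4 (by rw [h5, hr₀z])
          · exact fin 4 (ineq 4 _ _ hd3 h3) hO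
        · exact fin 4 (ineq 4 _ _ hd2 h2) hO
      · exact fin 4 (ineq 4 _ _ hd1 h1) hO
    · -- case 1, `L F ≠ 0`
      obtain ⟨e, he, he'⟩ := A.br z' A.z2
      obtain ⟨b, hb⟩ := A.O_br r hr z'
      refine fin 3 (ineq 3 _ _ he ?_) ⟨-b, ?_⟩
      · rw [he', A.L_z2, A.D_z2, mul_zero, zero_sub]
        exact neg_ne_zero.2 (mul_ne_zero hL A.z2_ne)
      · rw [mul_neg, ← hb]
        abel
  · -- case 1, `D F ≠ 0`
    obtain ⟨e, he, he'⟩ := A.br z' A.z3
    obtain ⟨b, hb⟩ := A.O_br r hr z'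
    refine fin 3 (ineq 3 _ _ he ?_) ⟨-b, ?_⟩
    · rw [he', A.L_z3, A.D_z3, mul_zero, sub_zero]
      exact mul_ne_zero hD A.z3_ne
    · rw [mul_neg, ← hb]
      abel

/-- THE ORDER PART. If all derivations `v` of `M` with the listed properties are zero, then an
element `z` of `S` with `red z ≠ 0`, `s z = z` and central cube is central. -/
theorem central (field : ∀ v : M → M, (∀ F G, v (F + G) = v F + v G) →
      (∀ F G, v (F * G) = v F * G + F * v G) → (∀ r ∈ A.O, v (A.red r) = 0) →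
      (∀ F G, v (A.D F * A.L G - A.L F * A.D G) =
        (A.D (v F) * A.L G - A.L (v F) * A.D G) + (A.D F * A.L (v G) - A.L F * A.D (v G))) →
      (∀ F, v (A.sb F) = A.sb (v F)) →
      ((∀ F, v (v (v F)) = 0) ∨ (∀ F, v (v (v F)) = v F)) → ∀ F, v F = 0)
    {z : S} (hz : A.red z ≠ 0) (hs : A.s z = z) (h3 : ∀ a, z ^ 3 * a = a * z ^ 3) (a₀ : S) :
    z * a₀ = a₀ * z := by
  by_contra h0
  obtain ⟨l, hl, hl'⟩ := A.exists_lev h0
  have hl3 := A.three_le hl'
  obtain ⟨u, rfl⟩ := A.unit z hz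
  -- the automorphism `θ`
  have hQ : ∀ a, ∃ b, (u : S) * a * ((u⁻¹ : Sˣ) : S) - a = A.P ^ l * b := by
    intro a
    obtain ⟨b, hb⟩ := hl a
    refine ⟨b * ((u⁻¹ : Sˣ) : S), ?_⟩
    rw [← mul_assoc, ← hb, sub_mul, mul_assoc a, Units.mul_inv, mul_one]
  choose V hV using hQ
  have hVu : ∀ a b, (u : S) * a * ((u⁻¹ : Sˣ) : S) - a = A.P ^ l * b → V a = b := by
    intro a b h
    exact A.Pn_inj l (by rw [← hV, h])
  have hθ : ∀ a, (u : S) * a * ((u⁻¹ : Sˣ) : S) = a + A.P ^ l * V a := by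
    intro a
    rw [← hV]
    abel
  have V_add : ∀ a b, V (a + b) = V a + V b := by
    intro a b
    apply hVu
    rw [mul_add, add_mul, hθ, hθ, mul_add]
    abel
  have V_zero : V 0 = 0 := hVu _ _ (by rw [mul_zero, zero_mul, mul_zero, sub_zero])
  have V_neg : ∀ a, V (-a) = -V a := by
    intro a
    have := V_add a (-a)
    rw [add_neg_cancel, V_zero] at this
    exact (neg_eq_of_add_eq_zero_right this.symm).symm
  have V_sub : ∀ a b, V (a - b) = V a - V b := by
    intro a b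
    rw [sub_eq_add_neg, V_add, V_neg, ← sub_eq_add_neg]
  have V_P : ∀ (n : ℕ) a, V (A.P ^ n * a) = A.P ^ n * V a := by
    intro n a
    apply hVu
    have : (u : S) * (A.P ^ n * a) * ((u⁻¹ : Sˣ) : S) =
        A.P ^ n * ((u : S) * a * ((u⁻¹ : Sˣ) : S)) := by
      rw [← mul_assoc, ← A.Pn_comm n (u : S)]
      simp only [mul_assoc]
    rw [this, hθ, mul_add, ← mul_assoc, ← mul_assoc, ← pow_add, ← pow_add, add_comm n l]
    abel
  have V_mul : ∀ a b, V (a * b) = V a * b + a * V b + A.P ^ l * (V a * V b) := by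
    intro a b
    apply hVu
    have h1 : (u : S) * (a * b) * ((u⁻¹ : Sˣ) : S) =
        ((u : S) * a * ((u⁻¹ : Sˣ) : S)) * ((u : S) * b * ((u⁻¹ : Sˣ) : S)) := by
      simp only [mul_assoc, Units.inv_mul_cancel_left]
    rw [h1, hθ, hθ]
    have h2 : a * (A.P ^ l * V b) = A.P ^ l * (a * V b) := by
      rw [← mul_assoc, ← A.Pn_comm l a, mul_assoc]
    have h3 : A.P ^ l * V a * (A.P ^ l * V b) = A.P ^ l * (A.P ^ l * (V a * V b)) := by
      rw [mul_assoc, ← mul_assoc (V a), ← A.Pn_comm l (V a), mul_assoc]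
    rw [add_mul, mul_add, mul_add, h2, h3, mul_add, mul_add, mul_assoc]
    abel
  -- the cube
  have hcube : ∀ a, A.P ^ (12 + l) * V a + A.P ^ (12 + 2 * l) * V (V a) =
      A.P ^ (3 * l) * V (V (V a)) := by
    intro a
    have h1 : (u : S) * ((u : S) * ((u : S) * a * ((u⁻¹ : Sˣ) : S)) * ((u⁻¹ : Sˣ) : S)) *
        ((u⁻¹ : Sˣ) : S) = a := by
      have e1 : (u : S) * ((u : S) * ((u : S) * a * ((u⁻¹ : Sˣ) : S)) * ((u⁻¹ : Sˣ) : S)) *
          ((u⁻¹ : Sˣ) : S) = (u : S) ^ 3 * a * (((u⁻¹ : Sˣ) : S) ^ 3) := by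
        rw [pow_three, pow_three]
        simp only [mul_assoc]
      have e2 : (u : S) ^ 3 * (((u⁻¹ : Sˣ) : S) ^ 3) = 1 := by
        rw [← Units.val_pow_eq_pow_val, ← Units.val_pow_eq_pow_val, ← Units.val_mul, inv_pow,
          mul_inv_cancel, Units.val_one]
      rw [e1, h3 a, mul_assoc, e2, mul_one]
    have h2 : (3 : S) * (A.P ^ l * V a) + 3 * (A.P ^ l * (A.P ^ l * V (V a))) +
        A.P ^ l * (A.P ^ l * (A.P ^ l * V (V (V a)))) = 0 := by
      rw [hθ, hθ, hθ] at h1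
      simp only [V_add, V_P] at h1
      have e3 : (3 : S) = 1 + 1 + 1 := by norm_num
      rw [e3]
      simp only [mul_add, add_mul, one_mul] at h1 ⊢
      have h4 := sub_eq_zero.2 h1
      rw [← h4]
      abel
    rw [A.three] at h2
    have e5 : A.P ^ (12 + l) * V a = A.P ^ 12 * (A.P ^ l * V a) := by rw [pow_add, mul_assoc]
    have e6 : A.P ^ (12 + 2 * l) * V (V a) = A.P ^ 12 * (A.P ^ l * (A.P ^ l * V (V a))) := by
      rw [pow_add, two_mul, pow_add, mul_assoc, mul_assoc]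
    have e7 : A.P ^ (3 * l) * V (V (V a)) = A.P ^ l * (A.P ^ l * (A.P ^ l * V (V (V a)))) := by
      have : 3 * l = l + (l + l) := by omega
      rw [this, pow_add, pow_add, mul_assoc, mul_assoc]
    rw [e5, e6, e7]
    have h5 := sub_eq_zero.2 h2.symm
    rw [← sub_eq_zero, ← neg_eq_zero, ← h2]
    simp only [neg_mul]
    abel
  -- the derivation `v`
  have hwell : ∀ a b, A.red a = A.red b → A.red (V a) = A.red (V b) := by
    intro a b h
    obtain ⟨c, hc⟩ := A.ker (a - b) (by rw [map_sub, h, sub_self])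
    have h1 : V (a - b) = A.P ^ 1 * V c := by
      rw [← V_P, pow_one, hc]
    rw [← sub_eq_zero, ← map_sub, ← V_sub, h1]
    exact A.red_Pn one_ne_zero _
  obtain ⟨v, hv⟩ : ∃ v : M → M, ∀ a, v (A.red a) = A.red (V a) :=
    ⟨fun F => A.red (V (Function.surjInv A.surj F)), fun a =>
      hwell _ _ (Function.surjInv_eq A.surj _)⟩
  have red_Pl : ∀ a, A.red (A.P ^ l * a) = 0 := fun a => A.red_Pn (by omega) a
  have hfin := field v ?_ ?_ ?_ ?_ ?_ ?_
  · -- contradiction
    apply hl'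
    intro a
    obtain ⟨b, hb⟩ := A.ker (V a) (by rw [← hv]; exact hfin _)
    refine ⟨b * (u : S), ?_⟩
    have h1 := hV a
    rw [hb, ← mul_assoc, ← pow_succ] at h1
    rw [← mul_assoc, ← h1, sub_mul, mul_assoc _ _ (u : S), Units.inv_mul, mul_one]
  · -- additive
    intro F G
    obtain ⟨a, rfl⟩ := A.surj F
    obtain ⟨b, rfl⟩ := A.surj G
    rw [← map_add, hv, hv, hv, V_add, map_add]
  · -- Leibniz
    intro F G
    obtain ⟨a, rfl⟩ := A.surj F
    obtain ⟨b, rfl⟩ := A.surj G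
    rw [← map_mul, hv, hv, hv, V_mul, map_add, map_add, map_mul, map_mul, red_Pl, add_zero]
  · -- `O`
    intro r hr
    obtain ⟨b, hb⟩ := A.lemX h0 hl hr
    rw [hv]
    have h1 : V r = A.P * (b * ((u⁻¹ : Sˣ) : S)) := by
      apply hVu
      rw [← mul_assoc, ← pow_succ, ← mul_assoc, ← hb, sub_mul, mul_assoc r, Units.mul_inv,
        mul_one]
    rw [h1, map_mul, A.red_P, zero_mul]
  · -- the bracket
    intro F G
    obtain ⟨a, rfl⟩ := A.surj F
    obtain ⟨b, rfl⟩ := A.surj G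
    obtain ⟨c, hc, hc'⟩ := A.br a b
    obtain ⟨d, hd, hd'⟩ := A.br (V a) b
    obtain ⟨e, he, he'⟩ := A.br a (V b)
    obtain ⟨f, hf, -⟩ := A.br (V a) (V b)
    rw [← hc', hv, hv, hv, ← hd', ← he', ← map_add]
    have h1 : V c = d + e + A.P ^ l * f := by
      apply A.Pn_inj 3
      rw [← V_P, ← hc, V_sub, V_mul, V_mul, mul_add, mul_add, ← hd, ← he]
      have h2 : A.P ^ 3 * (A.P ^ l * f) = A.P ^ l * (A.P ^ 3 * f) := by
        rw [← mul_assoc, ← mul_assoc, ← pow_add, ← pow_add, add_comm]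
      rw [h2, ← hf, mul_sub]
      abel
    rw [h1, map_add, red_Pl, add_zero]
  · -- `s`
    intro F
    obtain ⟨a, rfl⟩ := A.surj F
    rw [← A.red_s, hv, hv, ← A.red_s]
    congr 1
    apply hVu
    have hsu : A.s ((u⁻¹ : Sˣ) : S) = ((u⁻¹ : Sˣ) : S) := by
      have h1 : A.s ((u⁻¹ : Sˣ) : S) * (u : S) = 1 := by
        conv_lhs => rw [← hs]
        rw [← map_mul, Units.inv_mul, map_one]
      calc A.s ((u⁻¹ : Sˣ) : S) = A.s ((u⁻¹ : Sˣ) : S) * ((u : S) * ((u⁻¹ : Sˣ) : S)) := by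
            rw [Units.mul_inv, mul_one]
        _ = ((u⁻¹ : Sˣ) : S) := by rw [← mul_assoc, h1, one_mul]
    have h2 := congrArg A.s (hV a)
    rw [map_sub, map_mul, map_mul, map_mul, map_pow, A.s_P, hs, hsu] at h2
    exact h2
  · -- the cube
    rcases lt_trichotomy l 6 with h6 | h6 | h6
    · left
      intro F
      obtain ⟨a, rfl⟩ := A.surj F
      rw [hv, hv, hv]
      have h1 : V (V (V a)) = A.P ^ (12 - 2 * l) * V a + A.P ^ (12 - l) * V (V a) := by
        apply A.Pn_inj (3 * l)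
        have e1 : 3 * l + (12 - 2 * l) = 12 + l := by omega
        have e2 : 3 * l + (12 - l) = 12 + 2 * l := by omega
        rw [← hcube, mul_add, ← mul_assoc, ← mul_assoc, ← pow_add, ← pow_add, e1, e2]
      rw [h1, map_add, A.red_Pn (by omega), A.red_Pn (by omega), add_zero]
    · right
      intro F
      obtain ⟨a, rfl⟩ := A.surj F
      rw [hv, hv, hv]
      have h1 : V (V (V a)) = V a + A.P ^ 6 * V (V a) := by
        apply A.Pn_inj (3 * l)
        have e1 : 12 + l = 3 * l := by omega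
        have e2 : 3 * l + 6 = 12 + 2 * l := by omega
        rw [← hcube, mul_add, ← mul_assoc, ← pow_add, e1, e2]
      rw [h1, map_add, A.red_Pn (by omega), add_zero]
    · left
      have hv0 : ∀ F, v F = 0 := by
        intro F
        obtain ⟨a, rfl⟩ := A.surj F
        rw [hv]
        have h1 : V a = A.P ^ (2 * l - 12) * V (V (V a)) - A.P ^ l * V (V a) := by
          apply A.Pn_inj (12 + l)
          rw [mul_sub, ← mul_assoc, ← mul_assoc, ← pow_add, ← pow_add]
          have e1 : 12 + l + (2 * l - 12) = 3 * l := by omega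
          have e2 : 12 + l + l = 12 + 2 * l := by omega
          rw [e1, e2, ← hcube]
          abel
        rw [h1, map_sub, A.red_Pn (by omega), A.red_Pn (by omega), sub_zero]
      intro F
      rw [hv0]

end Ord

end Pool.Agent.H.MP_9e990c_al
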